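import Pool.Agent.Helper46.RO.Base

/-!
# Compactness of the sphere: the uniform pushing property
-/

namespace Pool.Agent.Helper47.RO

open Pool.Agent.Helper46.RO Filter Topology

universe u

theorem Good.anti {L : Type u} [Group L] {X : Finset L} {n : ℕ} {π : L → Fin n → ℤ}
    {w : Fin n → ℝ} {δ δ' : ℝ} {W : L × ℕ × Finset L} (h : Good X π w δ W) (hd : δ' ≤ δ) :
    Good X π w δ' W := by
  refine ⟨h.1, hd.trans h.2.1, fun x hx => (h.2.2 x hx).mono ?_⟩
  rintro k ⟨h1, h2⟩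
  exact ⟨h1, by linarith⟩

theorem continuous_chr {L : Type u} {n : ℕ} (π : L → Fin n → ℤ) (g : L) :
    Continuous fun w : Fin n → ℝ => ∑ i, w i * (π g i : ℝ) :=
  continuous_finsetSum _ (fun i _ => (continuous_apply i).mul continuous_const)

theorem isCompact_sphere (n : ℕ) : IsCompact {w : Fin n → ℝ | ∑ i, w i ^ 2 = 1} := by
  refine Metric.isCompact_of_isClosed_isBounded ?_ ?_
  · exact isClosed_eq (continuous_finsetSum _ (fun i _ => (continuous_apply i).pow 2))
      continuous_const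
  · refine (Metric.isBounded_closedBall (x := (0 : Fin n → ℝ)) (r := 1)).subset ?_
    intro w hw
    rw [Metric.mem_closedBall, dist_pi_le_iff zero_le_one]
    intro i
    have h1 : w i ^ 2 ≤ ∑ j, w j ^ 2 :=
      Finset.single_le_sum (f := fun j => w j ^ 2) (fun j _ => sq_nonneg _) (Finset.mem_univ i)
    have hw' : ∑ j, w j ^ 2 = 1 := hw
    rw [hw'] at h1
    rw [Pi.zero_apply, Real.dist_eq, sub_zero]
    exact abs_le_one_iff_mul_self_le_one.2 (by nlinarith)

/-- the local statement -/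
theorem local_good {L : Type u} [Group L] (X : Finset L) (n : ℕ) (π : L → Fin n → ℤ)
    (w : Fin n → ℝ) (h : Margin X (chr π w)) :
    ∃ (W : L × ℕ × Finset L) (δ : ℝ), 0 < δ ∧ ∀ᶠ w' in 𝓝 w, Good X π w' δ W := by
  classical
  obtain ⟨x₀, hx₀, hpos, m, H⟩ := h
  have H' : ∀ x, ∃ F : Finset L, x ∈ X → (∀ k ∈ F, max 0 (chr π w x) < chr π w k) ∧
      Conn X (F : Set L) (x₀ ^ m) (x * x₀ ^ m) := by
    intro x
    by_cases hx : x ∈ X
    · obtain ⟨F, h1, h2⟩ := (H x hx).exists_finset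
      exact ⟨F, fun _ => ⟨h1, h2⟩⟩
    · exact ⟨∅, fun h => absurd h hx⟩
  choose F hF using H'
  have hcont : ∀ g, Continuous fun w' : Fin n → ℝ => chr π w' g := fun g => continuous_chr π g
  have e1 : ∀ᶠ δ : ℝ in 𝓝[>] 0, (∀ x ∈ X, ∀ k ∈ F x, max 0 (chr π w x) + δ < chr π w k) ∧
      δ < chr π w x₀ := by
    refine Filter.Eventually.filter_mono nhdsWithin_le_nhds ?_
    refine Filter.Eventually.and ?_ ?_
    · rw [Filter.eventually_all_finset]
      intro x hx
      rw [Filter.eventually_all_finset]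
      intro k hk
      have h1 := (hF x hx).1 k hk
      have h2 : Continuous fun δ : ℝ => max 0 (chr π w x) + δ := by fun_prop
      refine (h2.tendsto 0).eventually_lt_const ?_
      rw [add_zero]
      exact h1
    · exact (continuous_id.tendsto (0 : ℝ)).eventually_lt_const hpos
  obtain ⟨δ, ⟨hδ1, hδ2⟩, hδ0⟩ := (e1.and self_mem_nhdsWithin).exists
  refine ⟨(x₀, m, X.biUnion F), δ, hδ0, ?_⟩
  have e2 : ∀ᶠ w' in 𝓝 w, (∀ x ∈ X, ∀ k ∈ F x, max 0 (chr π w' x) + δ < chr π w' k) ∧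
      δ < chr π w' x₀ := by
    refine Filter.Eventually.and ?_ ?_
    · rw [Filter.eventually_all_finset]
      intro x hx
      rw [Filter.eventually_all_finset]
      intro k hk
      have h2 : Continuous fun w' : Fin n → ℝ => max 0 (chr π w' x) + δ :=
        (continuous_const.max (hcont x)).add continuous_const
      exact (h2.tendsto w).eventually_lt ((hcont k).tendsto w) (hδ1 x hx k hk)
    · exact ((hcont x₀).tendsto w).eventually_const_lt hδ2
  filter_upwards [e2] with w' hw'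
  refine ⟨hx₀, hw'.2.le, fun x hx => ((hF x hx).2).mono ?_⟩
  intro k hk
  exact ⟨Finset.mem_biUnion.2 ⟨x, hx, hk⟩, (hw'.1 x hx k hk).le⟩

theorem P1 : GoalP1.{u} := by
  classical
  intro L _ X n π _ _ hM
  have key : ∀ w : Fin n → ℝ, ∃ (W : L × ℕ × Finset L) (δ : ℝ), ∑ i, w i ^ 2 = 1 →
      0 < δ ∧ ∀ᶠ w' in 𝓝 w, Good X π w' δ W := by
    intro w
    by_cases hw : ∑ i, w i ^ 2 = 1
    · have hw0 : w ≠ 0 := by
        rintro rfl
        simp at hw
      obtain ⟨W, δ, h1, h2⟩ := local_good X n π w (hM w hw0)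
      exact ⟨W, δ, fun _ => ⟨h1, h2⟩⟩
    · exact ⟨(1, 0, ∅), 1, fun h => absurd h hw⟩
  choose W δf hW using key
  obtain ⟨t, ht1, ht2⟩ := (isCompact_sphere n).elim_nhds_subcover
    (fun w => {w' | Good X π w' (δf w) (W w)}) (fun w hw => (hW w hw).2)
  have e1 : ∀ᶠ δ : ℝ in 𝓝[>] 0, ∀ w ∈ t, δ < δf w := by
    refine Filter.Eventually.filter_mono nhdsWithin_le_nhds ?_
    rw [Filter.eventually_all_finset]
    intro w hw
    exact (continuous_id.tendsto (0 : ℝ)).eventually_lt_const (hW w (ht1 w hw)).1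
  obtain ⟨δ, hδ1, hδ0⟩ := (e1.and self_mem_nhdsWithin).exists
  refine ⟨t.image W, δ, hδ0, ?_⟩
  intro w hw
  have h1 := ht2 hw
  rw [Set.mem_iUnion₂] at h1
  obtain ⟨w₀, hw₀, h2⟩ := h1
  exact ⟨W w₀, Finset.mem_image_of_mem W hw₀, Good.anti h2 (hδ1 w₀ hw₀).le⟩

end Pool.Agent.Helper47.RO
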